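import Pool.Agent.Lib.MP_1067ad_gt.PU.Cases

set_option autoImplicit false

open Cardinal Set Order Pool.Agent.Lib.MP_1067ad_gt.PU

namespace Pool.Agent.Results.MP_1067ad_gt.SingularPoints

universe u

/-- The space U(A) of uniform ultrafilters on the discrete set A: the subspace of the ultrafilters
on A all of whose members have cardinality |A|. The topology on the ultrafilters is Mathlib's, with
the sets of all ultrafilters containing a given subset of A as a basis. -/
abbrev UniformUltrafilter (A : Type u) : Type u :=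
  {p : Ultrafilter A // ∀ s : Set A, s ∈ p → #s = #A}

/-- The point p of the space X is a γ-point: there is a family of exactly γ pairwise disjoint open
sets such that p lies in the boundary (closure minus the set) of every member of the family. -/
def IsGammaPoint (X : Type u) [TopologicalSpace X] (γ : Cardinal.{u}) (p : X) : Prop :=
  ∃ F : Set (Set X), #F = γ ∧ (∀ O ∈ F, IsOpen O) ∧
    (∀ O ∈ F, ∀ O' ∈ F, O ≠ O' → O ∩ O' = ∅) ∧ ∀ O ∈ F, p ∈ closure O \ O

/-- Every set of full cardinality belongs to a uniform ultrafilter. -/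
theorem exists_unif (A : Type u) (hA : ℵ₀ ≤ #A) (c : Set A) (hc : #c = #A) :
    ∃ q : Ultrafilter A, (∀ s : Set A, s ∈ q → #s = #A) ∧ c ∈ q := by
  let F : Filter A :=
    { sets := {s | #(c \ s : Set A) < #A}
      univ_sets := by
        show #(c \ Set.univ : Set A) < #A
        simp only [sdiff_univ, mk_eq_zero]
        exact aleph0_pos.trans_le hA
      sets_of_superset := by
        intro x y hx hxy
        refine small_mono (t := c \ x) ?_ hx
        rintro a ⟨ha1, ha2⟩
        exact ⟨ha1, fun h => ha2 (hxy h)⟩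
      inter_sets := by
        intro x y hx hy
        refine small_mono ?_ (small_union hA hx hy)
        rintro a ⟨ha1, ha2⟩
        by_cases h : a ∈ x
        · exact Or.inr ⟨ha1, fun h' => ha2 ⟨h, h'⟩⟩
        · exact Or.inl ⟨ha1, h⟩ }
  have hF : F.NeBot := by
    rw [Filter.neBot_iff]
    intro h
    have h1 : (∅ : Set A) ∈ F := by
      rw [h]; exact Filter.mem_bot
    have h2 : #(c \ ∅ : Set A) < #A := h1
    rw [sdiff_empty, hc] at h2
    exact lt_irrefl _ h2
  refine ⟨Ultrafilter.of F, ?_, ?_⟩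
  · intro s hs
    apply le_antisymm (mk_set_le _)
    by_contra hlt
    push Not at hlt
    have h1 : sᶜ ∈ F := by
      show #(c \ sᶜ : Set A) < #A
      exact small_mono (fun a ha => not_not.1 ha.2) hlt
    have h2 : sᶜ ∈ Ultrafilter.of F := Ultrafilter.of_le F h1
    have h3 := Filter.inter_mem hs h2
    rw [inter_compl_self] at h3
    exact Ultrafilter.empty_notMem h3
  · apply Ultrafilter.of_le F
    show #(c \ c : Set A) < #A
    rw [Set.sdiff_self, mk_eq_zero]
    exact aleph0_pos.trans_le hA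

/-- For every singular cardinal α = |A| (infinite, with cofinality less than α) such that
2^α = α⁺, every point of the space U(α) of uniform ultrafilters on α is a 2^α-point of U(α). -/
theorem result (A : Type u) (hinf : ℵ₀ ≤ #A) (hsing : (#A).ord.cof < #A)
    (hsucc : (2 : Cardinal.{u}) ^ #A = succ #A) (p : UniformUltrafilter A) :
    IsGammaPoint (UniformUltrafilter A) (2 ^ #A) p := by
  have hnreg : ¬ (#A).IsRegular := by
    intro h
    exact absurd (h.2.trans_lt hsing) (lt_irrefl _)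
  obtain ⟨I, _, _, ⟨T⟩⟩ := exists_setup A hinf hnreg
  obtain ⟨𝓡, S, hS1, hS2, hS3⟩ := chains T p.1 p.2
  obtain ⟨cc, hc1, hc2, hc3⟩ :=
    refine_family T {D | D ∈ p.1} hsucc.symm 𝓡 S hS1 hS2 hS3
  let O : Set A → Set (UniformUltrafilter A) :=
    fun ξ => {q | ∃ D : {D : Set A // D ∈ p.1}, cc (D, ξ) ∈ q.1}
  have hopen : ∀ ξ, IsOpen (O ξ) := by
    intro ξ
    have h1 : O ξ = ⋃ D : {D : Set A // D ∈ p.1},
        (Subtype.val ⁻¹' {u : Ultrafilter A | cc (D, ξ) ∈ u}) := by
      ext q
      simp only [O, mem_iUnion, mem_preimage]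
      rfl
    rw [h1]
    exact isOpen_iUnion fun D => (ultrafilter_isOpen_basic _).preimage continuous_subtype_val
  have hdisj : ∀ ξ ξ', ξ ≠ ξ' → O ξ ∩ O ξ' = ∅ := by
    intro ξ ξ' hne
    rw [Set.eq_empty_iff_forall_notMem]
    rintro q ⟨⟨D, hD⟩, ⟨D', hD'⟩⟩
    have h1 := q.2 _ (Filter.inter_mem hD hD')
    have h2 := hc3 (D, ξ) (D', ξ') (fun h => hne (congrArg Prod.snd h))
    exact absurd h1 h2.ne
  have hcl : ∀ ξ, p ∈ closure (O ξ) := by
    intro ξ
    rw [mem_closure_iff]
    intro V hV hpV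
    obtain ⟨V', hV', rfl⟩ := isOpen_induced_iff.1 hV
    have hpV' : p.1 ∈ V' := hpV
    obtain ⟨t, ht1, ht2, ht3⟩ := ultrafilterBasis_is_basis.exists_subset_of_mem_open hpV' hV'
    obtain ⟨s, rfl⟩ := ht1
    have hs : s ∈ p.1 := ht2
    obtain ⟨q, hq1, hq2⟩ := exists_unif A hinf (cc (⟨s, hs⟩, ξ)) (hc2 _)
    refine ⟨⟨q, hq1⟩, ?_, ⟨⟨s, hs⟩, hq2⟩⟩
    apply ht3
    exact Filter.mem_of_superset hq2 (hc1 (⟨s, hs⟩, ξ))
  have hinj : Function.Injective O := by
    intro ξ ξ' h
    by_contra hne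
    have h1 := hdisj ξ ξ' hne
    rw [← h, inter_self] at h1
    have h2 := hcl ξ
    rw [h1, closure_empty] at h2
    exact h2
  refine ⟨Set.range O, ?_, ?_, ?_, ?_⟩
  · rw [mk_range_eq O hinj, mk_set]
  · rintro _ ⟨ξ, rfl⟩
    exact hopen ξ
  · rintro _ ⟨ξ, rfl⟩ _ ⟨ξ', rfl⟩ hne
    exact hdisj ξ ξ' (fun h => hne (by rw [h]))
  · rintro _ ⟨ξ, rfl⟩
    refine ⟨hcl ξ, ?_⟩
    intro hp
    have hnt : Nontrivial (Set A) := by
      have : Nonempty A := by
        rw [← mk_ne_zero_iff]
        intro h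
        rw [h] at hinf
        exact absurd hinf (not_le.2 aleph0_pos)
      infer_instance
    obtain ⟨ξ', hξ'⟩ := exists_ne ξ
    obtain ⟨q, hq1, hq2⟩ := mem_closure_iff.1 (hcl ξ') (O ξ) (hopen ξ) hp
    have h3 : q ∈ O ξ' ∩ O ξ := ⟨hq2, hq1⟩
    rw [hdisj ξ' ξ hξ'] at h3
    exact h3

end Pool.Agent.Results.MP_1067ad_gt.SingularPoints
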